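import Pool.Agent.Lib.MP_f9aece_nt_j4.Stmts
import Pool.Agent.Lib.MP_f9aece_nt_h97.EnergyE

/-!
Energies of high powers of prime sums convolved with the twisted divisor function
(`BePow`, `BePowAbs`).
-/

set_option autoImplicit false

namespace Pool.Agent.Lib.J4.H49

open MeasureTheory Set Filter Topology Complex
open Pool.Agent.Lib.MP_f9aece_nt Pool.Agent.Lib.MP_f9aece_nt_h97

/-- the truncated exponential is dominated by the product of local exponentials -/
lemma dom_expo_FF {I : Finset ℕ} (hI : ∀ p ∈ I, p.Prime) {c : ℝ} (hc : 0 ≤ c) (M m : ℕ)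
    (hm : m ≤ M) : Dom (expo c m I) (FF c M I) := by
  classical
  induction I using Finset.induction_on generalizing m with
  | empty =>
    have e1 : expo c m ∅ = FF c M ∅ := by
      unfold FF expo
      rw [Finset.prod_empty, Finset.sum_range_succ']
      have : ∀ r ∈ Finset.range m, (c ^ (r + 1) / ((r + 1).factorial : ℝ)) • PP ∅ ^ (r + 1) = 0 := by
        intro r _
        simp [PP]
      rw [Finset.sum_eq_zero this]
      simp
    rw [e1]
    exact dom_FF (by simp) (by rw [abs_of_nonneg hc]) M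
  | insert p I hp ih =>
    have hpp : p.Prime := hI p (Finset.mem_insert_self _ _)
    have hI' : ∀ q ∈ I, q.Prime := fun q hq => hI q (Finset.mem_insert_of_mem hq)
    have hF : FF c M (insert p I) = expo c M {p} * FF c M I := by
      unfold FF; rw [Finset.prod_insert hp]
    have hxd : Dom (PP {p}) (PP {p}) := by
      rw [PP_singleton]
      exact Dom.single p (by simp)
    have hG : ∀ n, 0 ≤ (FF c M I).coeff n :=
      (dom_FF hI' (c := c) (d := c) (by rw [abs_of_nonneg hc]) M).nonneg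
    have e3 : expo c m (insert p I)
        = ∑ i ∈ Finset.range (M + 1), ((c ^ i / (i.factorial : ℝ)) • PP {p} ^ i) *
            (if i ≤ m then expo c (m - i) I else 0) := by
      rw [expo_insert hp]
      have : ∀ i ∈ Finset.range (M + 1), ((c ^ i / (i.factorial : ℝ)) • PP {p} ^ i) *
            (if i ≤ m then expo c (m - i) I else 0)
          = if i ≤ m then ((c ^ i / (i.factorial : ℝ)) • PP {p} ^ i) * expo c (m - i) I else 0 := by
        intro i _
        split_ifs <;> simp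
      rw [Finset.sum_congr rfl this, ← Finset.sum_filter]
      refine Finset.sum_congr ?_ fun _ _ => rfl
      ext i
      simp only [Finset.mem_range, Finset.mem_filter]
      omega
    have e4 : FF c M (insert p I)
        = ∑ i ∈ Finset.range (M + 1), ((c ^ i / (i.factorial : ℝ)) • PP {p} ^ i) * FF c M I := by
      rw [hF]
      conv_lhs => rw [expo]
      rw [Finset.sum_mul]
    rw [e3, e4]
    refine Dom.sum _ fun i _ => ?_
    refine Dom.mul ((hxd.pow i).smul ?_) ?_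
    · rw [abs_of_nonneg (by positivity)]
    · split_ifs with h
      · exact ih hI' (m - i) (by omega)
      · intro n
        simpa using hG n

/-- a power of the prime sum is dominated by a multiple of the product of local exponentials -/
lemma dom_PP_pow {I : Finset ℕ} (hI : ∀ p ∈ I, p.Prime) {c : ℝ} (hc : 0 < c) (M : ℕ) :
    Dom (PP I ^ M) (((M.factorial : ℝ) / c ^ M) • FF c M I) := by
  have h1 := dom_expo_FF hI hc.le M M le_rfl
  intro n
  have h2 := h1 n
  rw [MonoidAlgebra.coeff_smul, Finsupp.smul_apply, smul_eq_mul]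
  have hcone := fun r => cone_PP_pow hI r
  have h3 : c ^ M / (M.factorial : ℝ) * (PP I ^ M).coeff n ≤ (expo c M I).coeff n := by
    unfold expo
    rw [Finset.sum_range_succ, MonoidAlgebra.coeff_add, Finsupp.add_apply,
      MonoidAlgebra.coeff_smul, Finsupp.smul_apply, smul_eq_mul]
    have h4 : 0 ≤ (∑ r ∈ Finset.range M, (c ^ r / (r.factorial : ℝ)) • (PP I) ^ r).coeff n :=
      ((Cone.sum (A := Set.univ) (Finset.range M) fun r _ =>
        Cone.smul (c := c ^ r / (r.factorial : ℝ)) ((hcone r).mono (Set.subset_univ _))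
          (by positivity)) n).1
    linarith
  have h5 : 0 ≤ (PP I ^ M).coeff n := ((hcone M) n).1
  rw [abs_of_nonneg h5]
  have h6 := (le_abs_self _).trans h2
  have hf : (0 : ℝ) < (M.factorial : ℝ) := by positivity
  have hcM : 0 < c ^ M := by positivity
  rw [div_mul_eq_mul_div, le_div_iff₀ hcM]
  have h7 := h3.trans h6
  rw [div_mul_eq_mul_div, div_le_iff₀ hf] at h7
  linarith

/-- local coefficients -/
lemma lh_le {c z : ℝ} (hc : 0 ≤ c) (hz : 0 ≤ z) (M k : ℕ) :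
    0 ≤ lh c z M k ∧ lh c z M k ^ 2
      ≤ ∑ i ∈ Finset.range (k + 1), ((i : ℝ) + 1) * (((c ^ 2) ^ i) / (i.factorial : ℝ) ^ 2) *
        ((((k - i : ℕ) : ℝ) + 1) * ((4 * z ^ 2) ^ (k - i))) := by
  have h0 : 0 ≤ lh c z M k := by
    unfold lh
    refine Finset.sum_nonneg fun i _ => ?_
    split_ifs <;> positivity
  refine ⟨h0, ?_⟩
  have h1 : lh c z M k ≤ ∑ i ∈ Finset.range (k + 1), c ^ i / (i.factorial : ℝ) * (2 * z) ^ (k - i) := by
    unfold lh
    rw [← Finset.sum_filter]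
    refine (Finset.sum_le_sum_of_subset_of_nonneg (t := Finset.range (k + 1)) ?_ ?_).trans ?_
    · intro i hi
      rw [Finset.mem_filter] at hi
      rw [Finset.mem_range]; omega
    · intro i _ _
      positivity
    · refine Finset.sum_le_sum fun i _ => ?_
      rw [mul_assoc]
      refine mul_le_mul_of_nonneg_left ?_ (by positivity)
      rw [mul_pow]
      refine mul_le_mul_of_nonneg_right ?_ (by positivity)
      have : k - i + 1 ≤ 2 ^ (k - i) := (k - i).lt_two_pow_self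
      exact_mod_cast this
  have h2 : lh c z M k ^ 2
      ≤ (∑ i ∈ Finset.range (k + 1), c ^ i / (i.factorial : ℝ) * (2 * z) ^ (k - i)) ^ 2 :=
    pow_le_pow_left₀ h0 h1 2
  refine h2.trans ?_
  have h3 := sq_sum_le_card_mul_sum_sq (s := Finset.range (k + 1))
    (f := fun i => c ^ i / (i.factorial : ℝ) * (2 * z) ^ (k - i))
  rw [Finset.card_range] at h3
  refine h3.trans ?_
  rw [Finset.mul_sum]
  refine Finset.sum_le_sum fun i hi => ?_
  rw [Finset.mem_range] at hi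
  have e1 : (c ^ i / (i.factorial : ℝ) * (2 * z) ^ (k - i)) ^ 2
      = (((c ^ 2) ^ i) / (i.factorial : ℝ) ^ 2) * (4 * z ^ 2) ^ (k - i) := by
    rw [mul_pow, div_pow, ← pow_mul, ← pow_mul, mul_comm i 2, ← pow_mul, mul_comm (k - i) 2,
      pow_mul (2 * z) 2]
    congr 2
    ring
  rw [e1]
  have h4 : (((k + 1 : ℕ) : ℝ)) ≤ ((i : ℝ) + 1) * (((k - i : ℕ) : ℝ) + 1) := by
    have : k + 1 ≤ (i + 1) * ((k - i) + 1) := by
      have h5 : k + 1 = i + (k - i) + 1 := by omega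
      rw [h5]
      generalize k - i = j
      nlinarith [Nat.zero_le (i * j)]
    exact_mod_cast this
  calc ((k + 1 : ℕ) : ℝ) * (((c ^ 2) ^ i) / (i.factorial : ℝ) ^ 2 * (4 * z ^ 2) ^ (k - i))
      ≤ (((i : ℝ) + 1) * (((k - i : ℕ) : ℝ) + 1)) *
          (((c ^ 2) ^ i) / (i.factorial : ℝ) ^ 2 * (4 * z ^ 2) ^ (k - i)) := by
        gcongr
    _ = _ := by ring

/-- local sums -/
lemma local_big {c z x : ℝ} (hc : 0 ≤ c) (hz : 0 ≤ z) (hx : 0 ≤ x) (hy : 4 * z ^ 2 * x ≤ 1 / 2)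
    (M N : ℕ) :
    ∑ k ∈ Finset.range N, lh c z M k ^ 2 * x ^ k
      ≤ Real.exp ((2 * c ^ 2 + 16 * z ^ 2) * x) := by
  set f : ℕ → ℝ := fun i => ((i : ℝ) + 1) * (((c ^ 2) ^ i) / (i.factorial : ℝ) ^ 2) * x ^ i with hf
  set g : ℕ → ℝ := fun j => ((j : ℝ) + 1) * (4 * z ^ 2 * x) ^ j with hg
  have hf0 : ∀ i, 0 ≤ f i := fun i => by rw [hf]; positivity
  have hg0 : ∀ i, 0 ≤ g i := fun i => by rw [hg]; positivity
  have h1 : ∀ k ∈ Finset.range N, lh c z M k ^ 2 * x ^ k
      ≤ ∑ i ∈ Finset.range (k + 1), f i * g (k - i) := by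
    intro k _
    calc lh c z M k ^ 2 * x ^ k ≤ (∑ i ∈ Finset.range (k + 1),
          ((i : ℝ) + 1) * (((c ^ 2) ^ i) / (i.factorial : ℝ) ^ 2) *
          ((((k - i : ℕ) : ℝ) + 1) * ((4 * z ^ 2) ^ (k - i)))) * x ^ k := by
          refine mul_le_mul_of_nonneg_right (lh_le hc hz M k).2 (by positivity)
      _ = ∑ i ∈ Finset.range (k + 1), f i * g (k - i) := by
          rw [Finset.sum_mul]
          refine Finset.sum_congr rfl fun i hi => ?_
          rw [Finset.mem_range] at hi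
          have e : x ^ k = x ^ i * x ^ (k - i) := by rw [← pow_add]; congr 1; omega
          rw [e, hf, hg]
          simp only
          rw [mul_pow (4 * z ^ 2) x]
          ring
  refine (Finset.sum_le_sum h1).trans ?_
  have h2 : ∑ k ∈ Finset.range N, ∑ i ∈ Finset.range (k + 1), f i * g (k - i)
      ≤ (∑ i ∈ Finset.range N, f i) * ∑ j ∈ Finset.range N, g j := by
    rw [Finset.sum_mul_sum, ← Finset.sum_product']
    rw [Finset.sum_sigma']
    classical
    set φ : (_ : ℕ) × ℕ → ℕ × ℕ := fun q => (q.2, q.1 - q.2) with hφ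
    have hinj : Set.InjOn φ ((Finset.range N).sigma fun k => Finset.range (k + 1) :
        Finset ((_ : ℕ) × ℕ)) := by
      rintro ⟨k, i⟩ h ⟨k', i'⟩ h' he
      have h := Finset.mem_sigma.1 (Finset.mem_coe.1 h)
      have h' := Finset.mem_sigma.1 (Finset.mem_coe.1 h')
      simp only [Finset.mem_range] at h h'
      rw [hφ] at he
      simp only [Prod.mk.injEq] at he
      obtain ⟨h3, h4⟩ := he
      subst h3
      have : k = k' := by omega
      subst this
      rfl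
    have himg := Finset.sum_image (f := fun q : ℕ × ℕ => f q.1 * g q.2) hinj
    rw [← himg]
    refine Finset.sum_le_sum_of_subset_of_nonneg ?_ fun q _ _ => mul_nonneg (hf0 _) (hg0 _)
    intro q hq
    rw [Finset.mem_image] at hq
    obtain ⟨⟨k, i⟩, h, rfl⟩ := hq
    simp only [Finset.mem_sigma, Finset.mem_range] at h
    simp only [hφ, Finset.mem_product, Finset.mem_range]
    omega
  refine h2.trans ?_
  have h3 : ∑ i ∈ Finset.range N, f i ≤ Real.exp (2 * c ^ 2 * x) := by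
    refine le_trans ?_ (Real.sum_le_exp_of_nonneg (by positivity : 0 ≤ 2 * c ^ 2 * x) N)
    refine Finset.sum_le_sum fun i _ => ?_
    rw [hf]
    simp only
    have h4 : ((i : ℝ) + 1) ≤ 2 ^ i * (i.factorial : ℝ) := by
      have h5 : i + 1 ≤ 2 ^ i := i.lt_two_pow_self
      have h6 : 1 ≤ i.factorial := Nat.one_le_iff_ne_zero.mpr (Nat.factorial_ne_zero i)
      have : i + 1 ≤ 2 ^ i * i.factorial := h5.trans (Nat.le_mul_of_pos_right _ h6)
      exact_mod_cast this
    have hfa : (0 : ℝ) < (i.factorial : ℝ) := by positivity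
    calc ((i : ℝ) + 1) * ((c ^ 2) ^ i / (i.factorial : ℝ) ^ 2) * x ^ i
        ≤ (2 ^ i * (i.factorial : ℝ)) * ((c ^ 2) ^ i / (i.factorial : ℝ) ^ 2) * x ^ i := by
          gcongr
      _ = (2 * c ^ 2 * x) ^ i / (i.factorial : ℝ) := by
          rw [mul_pow, mul_pow]
          field_simp
  have h4 : ∑ j ∈ Finset.range N, g j ≤ Real.exp (16 * z ^ 2 * x) := by
    have hy0 : 0 ≤ 4 * z ^ 2 * x := by positivity
    refine (sum_lin_le hy0 (by linarith) N).trans ?_
    set y := 4 * z ^ 2 * x with hyd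
    have e : 16 * z ^ 2 * x = 2 * y + 2 * y := by rw [hyd]; ring
    rw [e, Real.exp_add]
    have h5 : 1 / (1 - y) ≤ Real.exp (2 * y) := by
      rw [div_le_iff₀ (by linarith)]
      have := Real.add_one_le_exp (2 * y)
      nlinarith
    have h6 : 0 ≤ 1 / (1 - y) := by
      apply div_nonneg zero_le_one; linarith
    calc 1 / (1 - y) ^ 2 = (1 / (1 - y)) * (1 / (1 - y)) := by
          rw [div_mul_div_comm, one_mul, sq]
      _ ≤ _ := mul_le_mul h5 h5 h6 (Real.exp_pos _).le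
  calc (∑ i ∈ Finset.range N, f i) * ∑ j ∈ Finset.range N, g j
      ≤ Real.exp (2 * c ^ 2 * x) * Real.exp (16 * z ^ 2 * x) :=
        mul_le_mul h3 h4 (Finset.sum_nonneg fun j _ => hg0 j) (Real.exp_pos _).le
    _ = _ := by rw [← Real.exp_add]; congr 1; ring

/-- a bound for factorials -/
lemma factorial_bd : ∀ M : ℕ, 2 ≤ M → (M.factorial : ℝ) * Real.exp ((M : ℝ) / 4) ≤ (M : ℝ) ^ M := by
  have he : Real.exp (1 / 4) ≤ 2 := by
    have h1 : Real.exp 1 < 2.7182818286 := Real.exp_one_lt_d9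
    have h2 : Real.exp (1 / 4) ^ 4 = Real.exp 1 := by rw [← Real.exp_nat_mul]; norm_num
    by_contra h
    push Not at h
    have h3 : (2 : ℝ) ^ 4 < Real.exp (1 / 4) ^ 4 := pow_lt_pow_left₀ h (by norm_num) (by norm_num)
    rw [h2] at h3
    norm_num at h3
    linarith
  intro M hM
  induction M, hM using Nat.le_induction with
  | base =>
    have h2 : Real.exp (1 / 2) ^ 2 = Real.exp 1 := by rw [← Real.exp_nat_mul]; norm_num
    have h1 : Real.exp 1 < 2.7182818286 := Real.exp_one_lt_d9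
    have e : (((2 : ℕ) : ℝ)) / 4 = 1 / 2 := by norm_num
    rw [e]
    have h3 : Real.exp (1 / 2) ≤ 2 := by
      by_contra h
      push Not at h
      have h3 : (2 : ℝ) ^ 2 < Real.exp (1 / 2) ^ 2 := pow_lt_pow_left₀ h (by norm_num) (by norm_num)
      rw [h2] at h3
      norm_num at h3
      linarith
    norm_num [Nat.factorial]
    norm_num at h3
    linarith
  | succ M hM ih =>
    have hM0 : (0 : ℝ) < M := by exact_mod_cast (by omega : 0 < M)
    have h1 : 2 * (M : ℝ) ^ M ≤ ((M : ℝ) + 1) ^ M := by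
      have h2 := one_add_mul_le_pow (a := (M : ℝ)⁻¹) (by
        have : 0 ≤ (M : ℝ)⁻¹ := by positivity
        linarith) M
      have e1 : 1 + (M : ℝ) * (M : ℝ)⁻¹ = 2 := by
        rw [mul_inv_cancel₀ hM0.ne']; norm_num
      rw [e1] at h2
      have e2 : (M : ℝ) + 1 = M * (1 + (M : ℝ)⁻¹) := by
        rw [mul_add, mul_inv_cancel₀ hM0.ne', mul_one]
      rw [e2, mul_pow]
      have : (0 : ℝ) ≤ (M : ℝ) ^ M := by positivity
      nlinarith
    rw [Nat.factorial_succ]
    push_cast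
    have e3 : ((M : ℝ) + 1) / 4 = 1 / 4 + (M : ℝ) / 4 := by ring
    rw [e3, Real.exp_add]
    calc ((M : ℝ) + 1) * (M.factorial : ℝ) * (Real.exp (1 / 4) * Real.exp ((M : ℝ) / 4))
        = ((M : ℝ) + 1) * (Real.exp (1 / 4) * ((M.factorial : ℝ) * Real.exp ((M : ℝ) / 4))) := by ring
      _ ≤ ((M : ℝ) + 1) * (2 * (M : ℝ) ^ M) := by gcongr
      _ ≤ ((M : ℝ) + 1) * ((M : ℝ) + 1) ^ M := by gcongr
      _ = _ := by rw [pow_succ]; ring

/-- energy of a high power of the prime sum -/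
theorem core {S : Finset ℕ} (hS : ∀ p ∈ S, p.Prime) (hS1 : ∀ p ∈ S, 1000 ≤ p) {κ : ℝ}
    (hz : ∀ p ∈ S, (p : ℝ) ^ κ ≤ 3 / 2) {r : ℕ} (hr : 1 ≤ r) (hV : VV S ≤ 2 * r)
    (F : Finset ℕ) (hF : ∀ m ∈ F, m ∈ Smo (S : Set ℕ)) :
    ∑ m ∈ F, cvg (dk κ) (PP S ^ (100000 * r)) m ^ 2 * (m : ℝ)⁻¹
      ≤ Real.exp (-r) * ((1000 * (r : ℝ)) ^ (2 * (100000 * r)) / Real.exp (8 * (1000 * r))) := by
  set M := 100000 * r with hM
  have hdom := dom_PP_pow hS (c := 100) (by norm_num) M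
  set A : ℝ := (M.factorial : ℝ) / 100 ^ M with hA
  have hA0 : 0 ≤ A := by positivity
  have h1 : ∀ m ∈ F, cvg (dk κ) (PP S ^ M) m ^ 2 * (m : ℝ)⁻¹
      ≤ A ^ 2 * ∏ p ∈ S, (fun p k => lh 100 ((p : ℝ) ^ κ) M k ^ 2 * ((p : ℝ)⁻¹) ^ k) p
        (m.factorization p) := by
    intro m hm
    have h2 := abs_cvg_le_of_dom (dk_nonneg κ) hdom m
    rw [cvg_smul] at h2
    have h3 : cvg (dk κ) (PP S ^ M) m ^ 2 ≤ (A * cvg (dk κ) (FF 100 M S) m) ^ 2 := by
      rw [← sq_abs (cvg (dk κ) (PP S ^ M) m)]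
      exact pow_le_pow_left₀ (abs_nonneg _) h2 2
    calc cvg (dk κ) (PP S ^ M) m ^ 2 * (m : ℝ)⁻¹
        ≤ (A * cvg (dk κ) (FF 100 M S) m) ^ 2 * (m : ℝ)⁻¹ := by gcongr
      _ = _ := by
        rw [cvg_FF hS κ 100 M m (hF m hm), inv_smo (hF m hm), mul_pow, ← Finset.prod_pow, mul_assoc,
          ← Finset.prod_mul_distrib]
  refine (Finset.sum_le_sum h1).trans ?_
  rw [← Finset.mul_sum]
  have h2 := sum_smo_le S hS (fun p k => lh 100 ((p : ℝ) ^ κ) M k ^ 2 * ((p : ℝ)⁻¹) ^ k)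
    (fun p _ k => by positivity)
    (fun p => Real.exp ((2 * 100 ^ 2 + 16 * ((p : ℝ) ^ κ) ^ 2) * (p : ℝ)⁻¹))
    (fun p hp N => by
      have hz0 : 0 ≤ (p : ℝ) ^ κ := by positivity
      have hx : (p : ℝ)⁻¹ ≤ 1 / 1000 := by
        have h1000 : (1000 : ℝ) ≤ p := by exact_mod_cast hS1 p hp
        rw [← one_div]
        exact one_div_le_one_div_of_le (by norm_num) h1000
      refine local_big (by norm_num) hz0 (by positivity) ?_ M N
      have h4 : ((p : ℝ) ^ κ) ^ 2 ≤ (3 / 2) ^ 2 := pow_le_pow_left₀ hz0 (hz p hp) 2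
      have h5 : (0 : ℝ) ≤ (p : ℝ)⁻¹ := by positivity
      calc 4 * ((p : ℝ) ^ κ) ^ 2 * (p : ℝ)⁻¹ ≤ 4 * (3 / 2) ^ 2 * (1 / 1000) := by gcongr
        _ ≤ 1 / 2 := by norm_num) F hF
  have h3 : ∏ p ∈ S, Real.exp ((2 * 100 ^ 2 + 16 * ((p : ℝ) ^ κ) ^ 2) * (p : ℝ)⁻¹)
      ≤ Real.exp (41999 * r) := by
    rw [← Real.exp_sum, Real.exp_le_exp]
    calc ∑ p ∈ S, (2 * 100 ^ 2 + 16 * ((p : ℝ) ^ κ) ^ 2) * (p : ℝ)⁻¹
        ≤ ∑ p ∈ S, (2 * 100 ^ 2 + 16 * (3 / 2) ^ 2) * (p : ℝ)⁻¹ := by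
          refine Finset.sum_le_sum fun p hp => ?_
          have hz0 : 0 ≤ (p : ℝ) ^ κ := by positivity
          have h4 : ((p : ℝ) ^ κ) ^ 2 ≤ (3 / 2) ^ 2 := pow_le_pow_left₀ hz0 (hz p hp) 2
          gcongr
      _ = (2 * 100 ^ 2 + 16 * (3 / 2) ^ 2) * VV S := by rw [← Finset.mul_sum]; rfl
      _ ≤ (2 * 100 ^ 2 + 16 * (3 / 2) ^ 2) * (2 * r) := by gcongr
      _ ≤ 41999 * r := by
          have : (0 : ℝ) ≤ r := by positivity
          nlinarith
  have h4 : A ^ 2 * ∑ m ∈ F, ∏ p ∈ S, (fun p k => lh 100 ((p : ℝ) ^ κ) M k ^ 2 * ((p : ℝ)⁻¹) ^ k) p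
      (m.factorization p) ≤ A ^ 2 * Real.exp (41999 * r) :=
    mul_le_mul_of_nonneg_left (h2.trans h3) (by positivity)
  refine h4.trans ?_
  have hMr : (M : ℝ) = 100000 * r := by rw [hM]; push_cast; ring
  have h5 := factorial_bd M (by omega)
  have h6 : ((M.factorial : ℝ) * Real.exp ((M : ℝ) / 4)) ^ 2 ≤ ((M : ℝ) ^ M) ^ 2 :=
    pow_le_pow_left₀ (by positivity) h5 2
  have e1 : Real.exp ((M : ℝ) / 4) ^ 2 = Real.exp (50000 * r) := by
    rw [← Real.exp_nat_mul, hMr]; congr 1; push_cast; ring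
  rw [mul_pow, e1] at h6
  have e2 : (1000 * (r : ℝ)) ^ (2 * M) = ((M : ℝ) ^ M) ^ 2 / (100 ^ M) ^ 2 := by
    have : 1000 * (r : ℝ) = (M : ℝ) / 100 := by rw [hMr]; ring
    rw [this, div_pow, ← pow_mul, ← pow_mul, mul_comm 2 M]
  rw [e2, hA, div_pow]
  have h7 : Real.exp (41999 * (r : ℝ)) * (Real.exp (8 * (1000 * (r : ℝ))) * Real.exp r)
      = Real.exp (50000 * r) := by
    rw [← Real.exp_add, ← Real.exp_add]; congr 1; ring
  have h8 : (0 : ℝ) < (100 ^ M) ^ 2 := by positivity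
  rw [Real.exp_neg, ← div_eq_inv_mul, div_div, le_div_iff₀ (by positivity)]
  calc (M.factorial : ℝ) ^ 2 / (100 ^ M) ^ 2 * Real.exp (41999 * r)
        * (Real.exp (8 * (1000 * r)) * Real.exp r)
      = ((M.factorial : ℝ) ^ 2 * Real.exp (50000 * r)) / (100 ^ M) ^ 2 := by
        rw [← h7]; ring
    _ ≤ _ := by gcongr

/-- conversion of the convolutions -/
lemma cva_eq {b : DP} (hb : ∀ n, 0 ≤ b.coeff n) (h : ℕ → ℝ) {m : ℕ} (hm : m ≠ 0) :
    cva b h m = cvg h b m := by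
  classical
  unfold cva cvg
  rw [pair_def]
  have h1 : ∑ a ∈ b.coeff.support, b.coeff a * (if a ∣ m then h (m / a) else 0)
      = ∑ a ∈ b.coeff.support.filter (· ∣ m), b.coeff a * h (m / a) := by
    rw [Finset.sum_filter]
    refine Finset.sum_congr rfl fun a _ => ?_
    split_ifs <;> simp
  rw [h1]
  have h2 : ∑ u ∈ m.divisors, |b.coeff u| * h (m / u)
      = ∑ u ∈ m.divisors.filter (fun u => b.coeff u ≠ 0), b.coeff u * h (m / u) := by
    rw [Finset.sum_filter]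
    refine Finset.sum_congr rfl fun a _ => ?_
    rw [abs_of_nonneg (hb a)]
    split_ifs with h3
    · rfl
    · push Not at h3
      rw [h3, zero_mul]
  rw [h2]
  refine Finset.sum_congr ?_ fun _ _ => rfl
  ext a
  simp only [Finset.mem_filter, Nat.mem_divisors, Finsupp.mem_support_iff]
  tauto

lemma cv_eq {b : DP} (hb : ∀ n, 0 ≤ b.coeff n) (h : ℕ → ℝ) (m : ℕ) : cv b h m = cva b h m := by
  unfold cv cva
  exact Finset.sum_congr rfl fun a _ => by rw [abs_of_nonneg (hb a)]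

lemma core' {S : Finset ℕ} (hS : ∀ p ∈ S, p.Prime) (hS1 : ∀ p ∈ S, 1000 ≤ p) {κ : ℝ}
    (hz : ∀ p ∈ S, (p : ℝ) ^ κ ≤ 3 / 2) {r : ℕ} (hr : 1 ≤ r) (hV : VV S ≤ 2 * r) :
    EB S (cva (PP S ^ (100000 * r)) (fun n => J4.dv n * (n : ℝ) ^ κ))
      (J4.DS S * Real.exp (-r) * ((1000 * (r : ℝ)) ^ (2 * (100000 * r)) / Real.exp (8 * (1000 * r)))) := by
  intro F hF
  have hb : ∀ n, 0 ≤ (PP S ^ (100000 * r)).coeff n := fun n => ((cone_PP_pow hS _) n).1
  have h1 := core hS hS1 hz hr hV F hF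
  have h2 : ∑ m ∈ F, cva (PP S ^ (100000 * r)) (fun n => J4.dv n * (n : ℝ) ^ κ) m ^ 2 / (m : ℝ)
      = ∑ m ∈ F, cvg (dk κ) (PP S ^ (100000 * r)) m ^ 2 * (m : ℝ)⁻¹ := by
    refine Finset.sum_congr rfl fun m hm => ?_
    rw [cva_eq hb _ (hF m hm).1, div_eq_mul_inv]
    rfl
  rw [h2]
  refine h1.trans ?_
  have h3 : 1 ≤ J4.DS S := by
    have h4 : Real.exp (4 * VV S) ≤ J4.DS S := MP_f9aece_nt_h97.DS_ge hS
    exact (Real.one_le_exp (by have := VV_nonneg S; positivity)).trans h4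
  have h5 : 0 ≤ Real.exp (-(r : ℝ)) * ((1000 * (r : ℝ)) ^ (2 * (100000 * r)) / Real.exp (8 * (1000 * r))) := by
    positivity
  rw [mul_assoc]
  nlinarith

end Pool.Agent.Lib.J4.H49

namespace Pool.Agent.Lib.J4

open Pool.Agent.Lib.MP_f9aece_nt

theorem bePow : BePow := by
  intro S r hS hr hV
  have hb : ∀ n, 0 ≤ (PP S ^ (100000 * r)).coeff n := fun n =>
    ((cone_PP_pow (fun p hp => (hS p hp).1) _) n).1
  have h := H49.core' (κ := 0) (fun p hp => (hS p hp).1) (fun p hp => (hS p hp).2)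
    (fun p _ => by rw [Real.rpow_zero]; norm_num) hr hV
  intro F hF
  refine le_trans (le_of_eq ?_) (h F hF)
  refine Finset.sum_congr rfl fun m _ => ?_
  rw [H49.cv_eq hb]
  have : (fun n : ℕ => dv n * (n : ℝ) ^ (0 : ℝ)) = dv := by
    funext n; rw [Real.rpow_zero, mul_one]
  rw [this]

theorem bePowAbs : BePowAbs := by
  refine ⟨0, le_rfl, ?_⟩
  intro S r κ Y hS hr hV hκ hκY
  have h := H49.core' (κ := κ) (fun p hp => (hS p hp).1) (fun p hp => (hS p hp).2.1)
    (fun p hp => by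
      have hp0 : (0 : ℝ) < p := by
        have := (hS p hp).1.pos
        exact_mod_cast this
      rw [Real.rpow_def_of_pos hp0]
      have h1 : Real.log p * κ ≤ 1 / 3 := by
        calc Real.log p * κ ≤ Y * κ := mul_le_mul_of_nonneg_right (hS p hp).2.2 hκ
          _ = κ * Y := mul_comm _ _
          _ ≤ 1 / 3 := hκY
      refine (Real.exp_le_exp.mpr h1).trans ?_
      have h2 : Real.exp (1 / 3) ^ 3 = Real.exp 1 := by rw [← Real.exp_nat_mul]; norm_num
      have h3 : Real.exp 1 < 2.7182818286 := Real.exp_one_lt_d9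
      by_contra h4
      push Not at h4
      have h5 : (3 / 2 : ℝ) ^ 3 < Real.exp (1 / 3) ^ 3 := pow_lt_pow_left₀ h4 (by norm_num) (by norm_num)
      rw [h2] at h5
      norm_num at h5
      linarith) hr hV
  rw [zero_sub]
  exact h

end Pool.Agent.Lib.J4
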